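import Mathlib
import Pool.Agent.Lib_helper33.RNP.Defs
import Pool.Agent.Lib_helper33.RNP.Pairing

set_option autoImplicit false

open Filter Topology Set MeasureTheory
open scoped ENNReal

namespace Pool.Agent.Results.MP_01d06f_an.NormAttainmentRNP

open Pool.Agent.Lib_helper33.RNP

universe u v

/-- Let `X` be a real or complex Banach space, `μ` a non-atomic probability measure, `1 ≤ p < ∞`
and `q` the conjugate exponent. If every `f ∈ L^p(μ, X)` attains its norm on the closed unit ball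
of `L^q(μ, X*)`, then `X*` has the Radon-Nikodym property. -/
theorem result {𝕜 : Type*} [RCLike 𝕜] {X : Type v} [NormedAddCommGroup X] [NormedSpace 𝕜 X]
    [CompleteSpace X] {Ω : Type*} [MeasurableSpace Ω] (μ : Measure Ω) [IsProbabilityMeasure μ]
    (hμ : NonAtomic μ) (p q : ℝ≥0∞) (hp1 : 1 ≤ p) (_hp : p ≠ ∞) (hpq : p⁻¹ + q⁻¹ = 1)
    (hNA : ∀ f : Lp X p μ, ∃ g : Lp (StrongDual 𝕜 X) q μ, ‖g‖ ≤ 1 ∧
      ∫ ω, (g ω) (f ω) ∂μ = ((‖f‖ : ℝ) : 𝕜)) :
    HasRNP.{u} (StrongDual 𝕜 X) := by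
  letI : NormedSpace ℝ X := NormedSpace.restrictScalars ℝ 𝕜 X
  haveI : IsScalarTower ℝ 𝕜 X := ⟨fun r c x => by
    change (r • c) • x = (algebraMap ℝ 𝕜 r) • (c • x)
    rw [smul_smul, Algebra.smul_def]⟩
  haveI : Fact (1 ≤ p) := ⟨hp1⟩
  haveI hc : ENNReal.HolderConjugate p q := ⟨by simpa using hpq⟩
  haveI : Fact (1 ≤ q) := ⟨hc.symm.one_le⟩
  intro Ω' _ ν _ F hF hν
  haveI : IsFiniteMeasure F.variation := ⟨lt_top_iff_ne_top.2 hF⟩
  have hB1 : ∀ (x : X) (y : StrongDual 𝕜 X), rePairing 𝕜 X x y ≤ ‖x‖ * ‖y‖ := by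
    intro x y
    rw [rePairing_apply, mul_comm]
    exact (RCLike.re_le_norm _).trans (y.le_opNorm x)
  have hNA' : ∀ f : Lp X p μ, ∃ g : Lp (StrongDual 𝕜 X) q μ, ‖g‖ ≤ 1 ∧
      ∫ ω, rePairing 𝕜 X (f ω) (g ω) ∂μ = ‖f‖ := by
    intro f
    obtain ⟨g, hg, hfg⟩ := hNA f
    refine ⟨g, hg, ?_⟩
    have hint : Integrable (fun ω => (g ω) (f ω)) μ := by
      have h1 : MemLp (fun ω => (ContinuousLinearMap.id 𝕜 (X →L[𝕜] 𝕜)) (g ω) (f ω)) 1 μ := by
        haveI : ENNReal.HolderTriple q p 1 := hc.symm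
        exact ContinuousLinearMap.memLp_of_bilin 1 (ContinuousLinearMap.id 𝕜 (X →L[𝕜] 𝕜))
          (Lp.memLp g) (Lp.memLp f)
      exact memLp_one_iff_integrable.1 h1
    have h2 : ∫ ω, RCLike.re ((g ω) (f ω)) ∂μ = RCLike.re (∫ ω, (g ω) (f ω) ∂μ) :=
      integral_re hint
    rw [hfg, RCLike.ofReal_re] at h2
    exact h2
  obtain ⟨g, hg, hgF⟩ := exists_density hμ (rePairing 𝕜 X) hB1 rePairing_norming p q hNA' F
  have hac : F.variation ≪ ν := by
    refine Measure.AbsolutelyContinuous.mk (fun A hA hA0 => ?_)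
    rw [VectorMeasure.variation_apply_eq_zero hA]
    intro t ht htm
    exact hν t htm (measure_mono_null ht hA0)
  refine ⟨fun ω => (F.variation.rnDeriv ν ω).toReal • g ω, (integrable_rnDeriv_smul_iff hac).2 hg,
    fun A hA => ?_⟩
  rw [hgF A hA, setIntegral_rnDeriv_smul hac hA]

end Pool.Agent.Results.MP_01d06f_an.NormAttainmentRNP
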